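import Pool.Agent.H93R3.GamD
import Pool.Agent.H93R3.GamN

set_option autoImplicit false

open Complex

namespace Pool.Agent.Results.MP_2550b6_an.Counterexample

/-- the closed symmetrised bidisc -/
def Gam : Set (ℂ × ℂ) := {p | ∃ z w : ℂ, ‖z‖ ≤ 1 ∧ ‖w‖ ≤ 1 ∧ p = (z + w, z * w)}

/-- the Gamma-interpolation data `lam j ↦ z j` are solvable -/
def GamSolvable {n : ℕ} (lam : Fin n → ℂ) (z : Fin n → ℂ × ℂ) : Prop :=
  ∃ f : ℂ → ℂ × ℂ, DifferentiableOn ℂ f (Metric.ball 0 1) ∧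
    (∀ x ∈ Metric.ball (0 : ℂ) 1, f x ∈ Gam) ∧ ∀ j, f (lam j) = z j

/-- the Nevanlinna-Pick data `lam j ↦ w j` are solvable -/
def NPSolvable {n : ℕ} (lam : Fin n → ℂ) (w : Fin n → ℂ) : Prop :=
  ∃ g : ℂ → ℂ, DifferentiableOn ℂ g (Metric.ball 0 1) ∧
    (∀ x ∈ Metric.ball (0 : ℂ) 1, ‖g x‖ ≤ 1) ∧ ∀ j, g (lam j) = w j

/-- Blaschke product of degree `d` -/
noncomputable def blaschke {d : ℕ} (c : ℂ) (a : Fin d → ℂ) (x : ℂ) : ℂ :=
  c * ∏ k, (x - a k) / (1 - (starRingEnd ℂ) (a k) * x)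

/-- the Nevanlinna-Pick data attached to `υ` are solvable -/
def CondAt {n : ℕ} (υ : ℂ → ℂ) (lam : Fin n → ℂ) (z : Fin n → ℂ × ℂ) : Prop :=
  NPSolvable lam fun j =>
    (2 * υ (lam j) * (z j).2 - (z j).1) / (2 - υ (lam j) * (z j).1)

/-- Condition `C_ν` -/
def Cond (ν : ℕ) {n : ℕ} (lam : Fin n → ℂ) (z : Fin n → ℂ × ℂ) : Prop :=
  ∀ d : ℕ, d ≤ ν → ∀ (c : ℂ) (a : Fin d → ℂ), ‖c‖ = 1 → (∀ k, ‖a k‖ < 1) →
    CondAt (blaschke c a) lam z

open Pool.Agent.H93R3.Gam in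
/-- the nodes -/
noncomputable def node (n : ℕ) (j : Fin n) : ℂ :=
  if (j : ℕ) = 0 then 0 else if (j : ℕ) = 1 then 1 / 2 else if (j : ℕ) = 2 then -(1 / 2)
  else (mu n j : ℂ)

/-- the targets -/
noncomputable def target (n : ℕ) (j : Fin n) : ℂ × ℂ :=
  if (j : ℕ) = 1 then (3 / 5, 0) else if (j : ℕ) = 2 then (-(3 / 5), 0) else (0, 0)

open Pool.Agent.H93R3.Gam

lemma node_inj (n : ℕ) (hn : 3 ≤ n) : Function.Injective (node n) := by
  intro i j hij
  have key : ∀ i : Fin n, ∃ r : ℝ, node n i = (r : ℂ) ∧ (((i : ℕ) = 0 ∧ r = 0) ∨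
      ((i : ℕ) = 1 ∧ r = 1 / 2) ∨ ((i : ℕ) = 2 ∧ r = -(1 / 2)) ∨
      (3 ≤ (i : ℕ) ∧ r = mu n i)) := by
    intro i
    by_cases h0 : (i : ℕ) = 0
    · exact ⟨0, by simp [node, h0], Or.inl ⟨h0, rfl⟩⟩
    by_cases h1 : (i : ℕ) = 1
    · exact ⟨1 / 2, by simp [node, h1], Or.inr (Or.inl ⟨h1, rfl⟩)⟩
    by_cases h2 : (i : ℕ) = 2
    · exact ⟨-(1 / 2), by simp [node, h2], Or.inr (Or.inr (Or.inl ⟨h2, rfl⟩))⟩
    · exact ⟨mu n i, by simp [node, h0, h1, h2], Or.inr (Or.inr (Or.inr ⟨by omega, rfl⟩))⟩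
  obtain ⟨r, hr, hr'⟩ := key i
  obtain ⟨s, hs, hs'⟩ := key j
  rw [hr, hs] at hij
  have hrs : r = s := by exact_mod_cast hij
  have m1 := mu_pos n i hn
  have m2 := mu_pos n j hn
  apply Fin.ext
  rcases hr' with ⟨a, b⟩ | ⟨a, b⟩ | ⟨a, b⟩ | ⟨a, b⟩ <;>
    rcases hs' with ⟨c, d⟩ | ⟨c, d⟩ | ⟨c, d⟩ | ⟨c, d⟩ <;>
    first
    | omega
    | (exfalso; linarith)
    | skip
  -- both extra nodes
  rw [b, d] at hrs
  unfold mu at hrs
  have hn' : (3 : ℝ) ≤ n := by exact_mod_cast hn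
  have e1 : 1 / (1000 * ((n : ℝ) + ((i : ℕ) : ℝ))) = 1 / (1000 * ((n : ℝ) + ((j : ℕ) : ℝ))) := by
    linarith
  have p1 : (0 : ℝ) < 1000 * ((n : ℝ) + ((i : ℕ) : ℝ)) := by positivity
  have p2 : (0 : ℝ) < 1000 * ((n : ℝ) + ((j : ℕ) : ℝ)) := by positivity
  rw [div_eq_div_iff p1.ne' p2.ne'] at e1
  have : ((i : ℕ) : ℝ) = ((j : ℕ) : ℝ) := by linarith
  exact_mod_cast this

lemma node_mem (n : ℕ) (hn : 3 ≤ n) (j : Fin n) : node n j ∈ Metric.ball (0 : ℂ) 1 := by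
  rw [mem_ball_zero_iff]
  unfold node
  split_ifs
  · simp
  · norm_num
  · rw [norm_neg]; norm_num
  · rw [Complex.norm_real, Real.norm_eq_abs, abs_of_nonneg (by linarith [mu_pos n j hn])]
    exact (mu_bd n j hn).2

lemma target_mem (n : ℕ) (j : Fin n) : target n j ∈ Gam := by
  unfold target
  split_ifs
  · exact ⟨3 / 5, 0, by norm_num, by simp, by simp⟩
  · refine ⟨-(3 / 5), 0, ?_, by simp, by simp⟩
    rw [norm_neg]; norm_num
  · exact ⟨0, 0, by simp, by simp, by simp⟩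

lemma condAt_of_bound (n : ℕ) (hn : 3 ≤ n) (υ : ℂ → ℂ) (h1 : ‖υ (1 / 2)‖ ≤ 1)
    (h2 : ‖υ (-(1 / 2))‖ ≤ 1) : CondAt υ (node n) (target n) := by
  obtain ⟨g, dg, ng, g0, gm, gp, gn⟩ := interp n hn (υ (1 / 2)) (-υ (-(1 / 2))) h1
    (by rwa [norm_neg])
  refine ⟨g, dg, ng, ?_⟩
  intro j
  by_cases c0 : (j : ℕ) = 0
  · simp [node, target, c0, g0]
  by_cases c1 : (j : ℕ) = 1
  · have hne : (10 - 3 * υ (1 / 2) : ℂ) ≠ 0 := by
      intro h
      have h3 : ‖(3 : ℂ) * υ (1 / 2)‖ = 10 := by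
        rw [show (3 : ℂ) * υ (1 / 2) = 10 by linear_combination -h]; simp
      rw [norm_mul] at h3
      have h4 : ‖(3 : ℂ)‖ = 3 := by simp
      rw [h4] at h3
      linarith
    have en : node n j = 1 / 2 := by simp [node, c1]
    have et : target n j = (3 / 5, 0) := by simp [target, c1]
    show g (node n j) = (2 * υ (node n j) * (target n j).2 - (target n j).1) /
      (2 - υ (node n j) * (target n j).1)
    rw [en, et, gp]
    show (-3 : ℂ) / (10 - 3 * υ (1 / 2)) = (2 * υ (1 / 2) * 0 - 3 / 5) / (2 - υ (1 / 2) * (3 / 5))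
    have hne2 : (2 - υ (1 / 2) * (3 / 5) : ℂ) ≠ 0 := by
      intro h
      apply hne
      linear_combination 5 * h
    rw [div_eq_div_iff hne hne2]
    ring
  by_cases c2 : (j : ℕ) = 2
  · have hne : (10 - 3 * -υ (-(1 / 2)) : ℂ) ≠ 0 := by
      intro h
      have h3 : ‖(3 : ℂ) * υ (-(1 / 2))‖ = 10 := by
        rw [show (3 : ℂ) * υ (-(1 / 2)) = -10 by linear_combination h]; simp
      rw [norm_mul] at h3
      have h4 : ‖(3 : ℂ)‖ = 3 := by simp
      rw [h4] at h3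
      linarith
    have en : node n j = -(1 / 2) := by simp [node, c2]
    have et : target n j = (-(3 / 5), 0) := by simp [target, c2]
    show g (node n j) = (2 * υ (node n j) * (target n j).2 - (target n j).1) /
      (2 - υ (node n j) * (target n j).1)
    rw [en, et, gn]
    show (3 : ℂ) / (10 - 3 * -υ (-(1 / 2))) =
      (2 * υ (-(1 / 2)) * 0 - -(3 / 5)) / (2 - υ (-(1 / 2)) * -(3 / 5))
    have hne2 : (2 - υ (-(1 / 2)) * -(3 / 5) : ℂ) ≠ 0 := by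
      intro h
      apply hne
      linear_combination 5 * h
    rw [div_eq_div_iff hne hne2]
    ring
  · have en : node n j = (mu n j : ℂ) := by simp [node, c0, c1, c2]
    have et : target n j = (0, 0) := by simp [target, c1, c2]
    show g (node n j) = (2 * υ (node n j) * (target n j).2 - (target n j).1) /
      (2 - υ (node n j) * (target n j).1)
    rw [en, et, gm j]
    simp

lemma blaschke_le {d : ℕ} (c : ℂ) (a : Fin d → ℂ) (hc : ‖c‖ = 1) (ha : ∀ k, ‖a k‖ < 1) (x : ℂ)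
    (hx : ‖x‖ < 1) : ‖blaschke c a x‖ ≤ 1 := by
  unfold blaschke
  rw [norm_mul, hc, one_mul, norm_prod]
  refine Finset.prod_le_one (fun j _ => norm_nonneg _) ?_
  intro k _
  have hne : (1 - (starRingEnd ℂ) (a k) * x) ≠ 0 := by
    intro h
    have h2 : (starRingEnd ℂ) (a k) * x = 1 := by linear_combination -h
    have h3 : ‖(starRingEnd ℂ) (a k) * x‖ = 1 := by rw [h2]; simp
    rw [norm_mul, Complex.norm_conj] at h3
    have : ‖a k‖ * ‖x‖ < 1 := by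
      nlinarith [ha k, norm_nonneg (a k), norm_nonneg x]
    linarith
  rw [norm_div, div_le_iff₀ (norm_pos_iff.mpr hne)]
  apply norm_le_of_sq _ (by norm_num)
  have h1 := normSq_le_one (ha k).le
  have h2 := normSq_le_one hx.le
  rw [Complex.sq_norm, Complex.sq_norm, Complex.normSq_apply, Complex.normSq_apply]
  simp only [Complex.sub_re, Complex.sub_im, Complex.mul_re, Complex.one_re, Complex.one_im,
    Complex.mul_im, Complex.conj_re, Complex.conj_im]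
  nlinarith [mul_nonneg (sub_nonneg.mpr h1) (sub_nonneg.mpr h2)]

/-- For every `n ≥ 3` there are `n`-point data satisfying `C_ν` for all `ν` (even for all Schur
functions `υ`) which are not solvable. -/
theorem result (n : ℕ) (hn : 3 ≤ n) : ∃ (lam : Fin n → ℂ) (z : Fin n → ℂ × ℂ),
    Function.Injective lam ∧ (∀ j, lam j ∈ Metric.ball (0 : ℂ) 1) ∧ (∀ j, z j ∈ Gam) ∧
    (∀ ν : ℕ, Cond ν lam z) ∧
    (∀ υ : ℂ → ℂ, DifferentiableOn ℂ υ (Metric.ball 0 1) →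
      (∀ x ∈ Metric.ball (0 : ℂ) 1, ‖υ x‖ ≤ 1) → CondAt υ lam z) ∧
    ¬ GamSolvable lam z := by
  have hp : (1 / 2 : ℂ) ∈ Metric.ball (0 : ℂ) 1 := by
    rw [mem_ball_zero_iff]; norm_num
  have hm : (-(1 / 2) : ℂ) ∈ Metric.ball (0 : ℂ) 1 := by
    rw [mem_ball_zero_iff, norm_neg]; norm_num
  refine ⟨node n, target n, node_inj n hn, node_mem n hn, target_mem n, ?_, ?_, ?_⟩
  · intro ν d _ c a hc ha
    exact condAt_of_bound n hn _ (blaschke_le c a hc ha _ (by simpa using hp))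
      (blaschke_le c a hc ha _ (by simpa using hm))
  · intro υ _ hυ
    exact condAt_of_bound n hn _ (hυ _ hp) (hυ _ hm)
  · rintro ⟨f, df, hf, hfz⟩
    have j0 := hfz ⟨0, by omega⟩
    have j1 := hfz ⟨1, by omega⟩
    have j2 := hfz ⟨2, by omega⟩
    simp only [node, target, if_true, one_ne_zero, if_false, OfNat.ofNat_ne_zero,
      OfNat.ofNat_ne_one] at j0 j1 j2
    norm_num at j0 j1 j2
    refine noInterp (fun x => (f x).1) (fun x => (f x).2) df.fst df.snd ?_ ?_ ?_ ?_ ?_ ?_ ?_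
    · intro x hx
      obtain ⟨a, b, ha, hb, hab⟩ := hf x hx
      exact ⟨a, b, ha, hb, by rw [hab], by rw [hab]⟩
    · show (f 0).1 = 0
      rw [j0]
    · show (f 0).2 = 0
      rw [j0]
    · show (f (1 / 2)).1 = 3 / 5
      rw [j1]
    · show (f (1 / 2)).2 = 0
      rw [j1]
    · show (f (-(1 / 2))).1 = -(3 / 5)
      rw [j2]
    · show (f (-(1 / 2))).2 = 0
      rw [j2]

end Pool.Agent.Results.MP_2550b6_an.Counterexample
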